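import Pool.Agent.Helper61.Tri.Goals2

/-! Packet UODD of MP_5b3c48_co. -/

set_option autoImplicit false

open Finset

namespace Pool.Agent.Helper40.Tri

open Pool.Agent.Helper61.Tri

open scoped Classical

/-- Number of pairs of `tr G p` with the first element in `X`. -/
theorem fst_bound {V : Type} [Fintype V] (G : SimpleGraph V) (X : Finset V) (p : V) (K : ℕ) :
    ((tr G p).filter fun q => q.1 ∈ X).card ≤
      (X.filter fun x => lnk G K p x).card * (nb G p).card + X.card * K := by
  have h1 : ((tr G p).filter fun q => q.1 ∈ X).card =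
      ∑ x ∈ X, (((tr G p).filter fun q => q.1 ∈ X).filter fun q => q.1 = x).card :=
    Finset.card_eq_sum_card_fiberwise (f := Prod.fst) fun q hq => (Finset.mem_filter.1 hq).2
  rw [h1]
  have h2 : ∀ x ∈ X, (((tr G p).filter fun q => q.1 ∈ X).filter fun q => q.1 = x).card ≤
      (if lnk G K p x then (nb G p).card else 0) + K := by
    intro x hx
    have h3 : (((tr G p).filter fun q => q.1 ∈ X).filter fun q => q.1 = x).card ≤
        if G.Adj p x then (cn G p x).card else 0 := by
      by_cases ha : G.Adj p x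
      · rw [if_pos ha]
        refine Finset.card_le_card_of_injOn Prod.snd ?_ ?_
        · intro q hq
          have hq' := Finset.mem_filter.1 (Finset.mem_coe.1 hq)
          have hq2 := Finset.mem_filter.1 (Finset.mem_filter.1 hq'.1).1
          refine Finset.mem_coe.2 (Finset.mem_filter.2 ⟨Finset.mem_univ _, hq2.2.2.1, ?_⟩)
          rw [← hq'.2]
          exact hq2.2.2.2
        · intro q hq q' hq' h
          have e1 := (Finset.mem_filter.1 (Finset.mem_coe.1 hq)).2
          have e2 := (Finset.mem_filter.1 (Finset.mem_coe.1 hq')).2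
          exact Prod.ext (e1.trans e2.symm) h
      · rw [if_neg ha]
        rw [Nat.le_zero, Finset.card_eq_zero, Finset.filter_eq_empty_iff]
        intro q hq he
        have hq2 := Finset.mem_filter.1 (Finset.mem_filter.1 hq).1
        rw [he] at hq2
        exact ha hq2.2.1
    refine h3.trans ?_
    by_cases ha : G.Adj p x
    · rw [if_pos ha]
      by_cases hl : lnk G K p x
      · rw [if_pos hl]
        have h4 : (cn G p x).card ≤ (nb G p).card := by
          refine Finset.card_le_card fun w hw => ?_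
          exact Finset.mem_filter.2 ⟨Finset.mem_univ _, (Finset.mem_filter.1 hw).2.1⟩
        omega
      · rw [if_neg hl]
        have h5 : ¬ K ≤ (cn G p x).card := fun h => hl ⟨ha, h⟩
        omega
    · rw [if_neg ha]
      omega
  refine (Finset.sum_le_sum h2).trans ?_
  rw [Finset.sum_add_distrib, Finset.sum_const, smul_eq_mul, ← Finset.sum_filter,
    Finset.sum_const, smul_eq_mul]

theorem tr_swap {V : Type} [Fintype V] (G : SimpleGraph V) (p : V) (P Q : Finset V) :
    ((tr G p).filter fun q => q.1 ∈ P ∧ q.2 ∈ Q).card =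
      ((tr G p).filter fun q => q.1 ∈ Q ∧ q.2 ∈ P).card := by
  refine Finset.card_bij (fun q _ => (q.2, q.1)) ?_ ?_ ?_
  · intro q hq
    have h := Finset.mem_filter.1 hq
    have h2 := Finset.mem_filter.1 h.1
    exact Finset.mem_filter.2 ⟨Finset.mem_filter.2 ⟨Finset.mem_univ _, h2.2.2.1, h2.2.1,
      h2.2.2.2.symm⟩, h.2.2, h.2.1⟩
  · intro q _ q' _ h
    exact Prod.ext (Prod.mk.injEq _ _ _ _ ▸ h).2 (Prod.mk.injEq _ _ _ _ ▸ h).1
  · intro q hq
    have h := Finset.mem_filter.1 hq
    have h2 := Finset.mem_filter.1 h.1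
    exact ⟨(q.2, q.1), Finset.mem_filter.2 ⟨Finset.mem_filter.2 ⟨Finset.mem_univ _, h2.2.2.1,
      h2.2.1, h2.2.2.2.symm⟩, h.2.2, h.2.1⟩, rfl⟩

/-- A family of pairs any two of which agree in a coordinate. -/
theorem row_col {V : Type} [Fintype V] (A : Finset V) (S : Finset (V × V))
    (hS : ∀ q ∈ S, q.1 ∈ A ∧ q.2 ∈ A)
    (h : ∀ q ∈ S, ∀ q' ∈ S, q.1 = q'.1 ∨ q.2 = q'.2) : S.card ≤ A.card := by
  by_cases h1 : ∀ q ∈ S, ∀ q' ∈ S, q.1 = q'.1
  · refine Finset.card_le_card_of_injOn Prod.snd (fun q hq => (hS q hq).2) ?_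
    intro q hq q' hq' he
    exact Prod.ext (h1 q hq q' hq') he
  · push Not at h1
    obtain ⟨a, ha, b, hb, hab⟩ := h1
    have hab2 : a.2 = b.2 := (h a ha b hb).resolve_left hab
    have h2 : ∀ q ∈ S, q.2 = a.2 := by
      intro q hq
      rcases h q hq a ha with h3 | h3
      · rcases h q hq b hb with h4 | h4
        · exact absurd (h3.symm.trans h4) hab
        · rw [h4, hab2]
      · exact h3
    refine Finset.card_le_card_of_injOn Prod.fst (fun q hq => (hS q hq).1) ?_
    intro q hq q' hq' he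
    exact Prod.ext he ((h2 q hq).trans (h2 q' hq').symm)

theorem final_count {V : Type} [Fintype V] (G : SimpleGraph V) (U : Finset V) (c : ℕ) (r : ℝ)
    (h1 : (ot (within G U)).card ≤ c * (oe (within G U)).card)
    (h2 : ∀ p ∈ U, r ≤ (((tr G p).filter fun q => q.1 ∈ U ∧ q.2 ∈ U).card : ℝ)) :
    r * U.card ≤ c * (U.card : ℝ) ^ 2 := by
  have h3 : (U.sigma fun p => (tr G p).filter fun q => q.1 ∈ U ∧ q.2 ∈ U).card ≤
      (ot (within G U)).card := by
    refine Finset.card_le_card_of_injOn (fun z => (z.1, z.2.1, z.2.2)) ?_ ?_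
    · intro z hz
      have hz1 := Finset.mem_sigma.1 (Finset.mem_coe.1 hz)
      have hz2 := Finset.mem_filter.1 hz1.2
      have hz3 := Finset.mem_filter.1 hz2.1
      exact Finset.mem_coe.2 (Finset.mem_filter.2 ⟨Finset.mem_univ _, ⟨hz3.2.1, hz1.1, hz2.2.1⟩,
        ⟨hz3.2.2.1, hz1.1, hz2.2.2⟩, ⟨hz3.2.2.2, hz2.2.1, hz2.2.2⟩⟩)
    · rintro ⟨p, a, b⟩ _ ⟨p', a', b'⟩ _ h
      simp only [Prod.mk.injEq] at h
      obtain ⟨rfl, rfl, rfl⟩ := h
      rfl
  have h4 : (oe (within G U)).card ≤ U.card ^ 2 := by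
    rw [sq, ← Finset.card_product]
    refine Finset.card_le_card fun q hq => ?_
    have h5 := Finset.mem_filter.1 hq
    exact Finset.mem_product.2 h5.2.2
  rw [Finset.card_sigma] at h3
  have h5 : r * U.card ≤ ∑ p ∈ U, (((tr G p).filter fun q => q.1 ∈ U ∧ q.2 ∈ U).card : ℝ) := by
    have := Finset.sum_le_sum h2
    rw [Finset.sum_const, nsmul_eq_mul] at this
    linarith
  have h6 : (∑ p ∈ U, (((tr G p).filter fun q => q.1 ∈ U ∧ q.2 ∈ U).card : ℝ)) ≤
      ((ot (within G U)).card : ℝ) := by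
    exact_mod_cast h3
  have h7 : ((ot (within G U)).card : ℝ) ≤ c * ((oe (within G U)).card : ℝ) := by
    exact_mod_cast h1
  have h8 : ((oe (within G U)).card : ℝ) ≤ (U.card : ℝ) ^ 2 := by
    exact_mod_cast h4
  calc r * U.card ≤ _ := h5
    _ ≤ _ := h6
    _ ≤ _ := h7
    _ ≤ _ := mul_le_mul_of_nonneg_left h8 (by positivity)

theorem within_le {V : Type} (G : SimpleGraph V) (U : Finset V) : within G U ≤ G :=
  fun _ _ h => h.1

theorem uodd : EPTools → Peel → LinkX → COdd → UOdd := by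
  intro hEP hPeel hLX hCO s hs κ hκ C
  obtain ⟨K, n1, hC⟩ := hCO s hs
  obtain ⟨n2, hL⟩ := hLX s K (by omega)
  obtain ⟨n3, hn3⟩ := exists_nat_ge (100 * (C + 2 * (s * K)))
  have hs1 : (2:ℝ) ≤ s := by exact_mod_cast hs
  refine ⟨1 / (200 * ((s:ℝ) + 1)), by positivity, n1 + n2 + n3 + 1, ?_⟩
  intro V _ hn G X hH hX hUc hnb htr
  set n : ℝ := (Fintype.card V : ℝ) with hndef
  set ε : ℝ := 1 / (200 * ((s:ℝ) + 1)) with hε
  have hε0 : 0 < ε := by positivity
  have hε1 : ε * (200 * ((s:ℝ) + 1)) = 1 := by rw [hε]; field_simp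
  have hn1 : (n1 + n2 + n3 + 1 : ℝ) ≤ n := by
    rw [hndef]; exact_mod_cast hn
  have hnn3 : (n3:ℝ) ≤ n := by
    have h1 : (0:ℝ) ≤ n1 := Nat.cast_nonneg _
    have h2 : (0:ℝ) ≤ n2 := Nat.cast_nonneg _
    linarith
  have hnpos : 0 < n := by
    have h1 : (0:ℝ) ≤ n1 := Nat.cast_nonneg _
    have h2 : (0:ℝ) ≤ n2 := Nat.cast_nonneg _
    have h3 : (0:ℝ) ≤ n3 := Nat.cast_nonneg _
    linarith
  have hCK : C + 2 * (s * K) ≤ n / 100 := by
    have := hn3.trans hnn3
    linarith
  have hεs : ε * s ≤ 1 / 200 := by nlinarith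
  have hε2 : ε ≤ 1 / 600 := by nlinarith
  have hctx : Ctx G s X := by
    refine ⟨hX, ?_⟩
    show ((Us G X).card : ℝ) ≤ n / 40
    refine hUc.trans ?_
    nlinarith
  obtain ⟨hLQ, -, -⟩ := hL V (by omega) G X hctx
  obtain ⟨c1, c2, c3⟩ := hC V (by omega) G X hctx (within G Xᶜ) rfl
  by_contra hne
  have hUne : (Us G X).Nonempty := Finset.nonempty_iff_ne_empty.2 hne
  -- vertices outside `X`
  have hcase : ∀ v, v ∉ X → v ∉ Us G X → v ∈ Qs G X := by
    intro v hv hvU
    by_contra h
    exact hvU (Finset.mem_filter.2 ⟨Finset.mem_univ _, hv, h⟩)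
  have hXU : ∀ v ∈ Us G X, v ∉ X := fun v hv => (Finset.mem_filter.1 hv).2.1
  have hQU : ∀ v ∈ Us G X, v ∉ Qs G X := fun v hv => (Finset.mem_filter.1 hv).2.2
  have hQX : ∀ v ∈ Qs G X, v ∉ X := fun v hv => (Finset.mem_filter.1 hv).2.1
  have hwadj : ∀ {u v : V}, G.Adj u v → u ∉ X → v ∉ X → (within G Xᶜ).Adj u v :=
    fun h h1 h2 => ⟨h, Finset.mem_compl.2 h1, Finset.mem_compl.2 h2⟩
  -- the main estimate
  have hmain : ∀ p ∈ Us G X, 9 / 10 * n ≤
      (((tr G p).filter fun q => q.1 ∈ Us G X ∧ q.2 ∈ Us G X).card : ℝ) := by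
    intro p hp
    have hpX := hXU p hp
    set D : ℕ := (nb G p).card with hD
    set j : ℕ := (X.filter fun x => lnk G K p x).card with hj
    have hb1 : ((tr G p).filter fun q => q.1 ∈ X).card ≤ j * D + s * K := by
      have h1 := fst_bound G X p K
      rw [hX] at h1
      exact h1
    -- decomposition
    have hsplit : (tr G p).card ≤ ((tr G p).filter fun q => q.1 ∈ X).card +
        ((tr G p).filter fun q => q.2 ∈ X).card +
        ((tr G p).filter fun q => q.1 ∉ X ∧ q.2 ∉ X).card := by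
      refine (Finset.card_le_card (t := ((tr G p).filter fun q => q.1 ∈ X) ∪
        ((tr G p).filter fun q => q.2 ∈ X) ∪
        ((tr G p).filter fun q => q.1 ∉ X ∧ q.2 ∉ X)) ?_).trans
        ((Finset.card_union_le _ _).trans (Nat.add_le_add_right (Finset.card_union_le _ _) _))
      intro q hq
      simp only [Finset.mem_union, Finset.mem_filter]
      by_cases h1 : q.1 ∈ X
      · exact Or.inl (Or.inl ⟨hq, h1⟩)
      · by_cases h2 : q.2 ∈ X
        · exact Or.inl (Or.inr ⟨hq, h2⟩)
        · exact Or.inr ⟨hq, h1, h2⟩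
    have hb2 : ((tr G p).filter fun q => q.2 ∈ X).card ≤ j * D + s * K := by
      have h1 := tr_swap G p Finset.univ X
      simp only [Finset.mem_univ, true_and, and_true] at h1
      rw [h1]
      exact hb1
    have hT' : (s:ℝ) * n - C - 2 * (j * D) - 2 * (s * K) ≤
        (((tr G p).filter fun q => q.1 ∉ X ∧ q.2 ∉ X).card : ℝ) := by
      have h1 := htr p
      have h2 : ((tr G p).card : ℝ) ≤ (j * D + s * K) + (j * D + s * K) +
          (((tr G p).filter fun q => q.1 ∉ X ∧ q.2 ∉ X).card : ℝ) := by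
        have h3 : (tr G p).card ≤ (j * D + s * K) + (j * D + s * K) +
            ((tr G p).filter fun q => q.1 ∉ X ∧ q.2 ∉ X).card := by omega
        exact_mod_cast h3
      linarith
    have hDn : (D:ℝ) ≤ (1 / 2 + ε) * n := hnb p hpX
    have hD0 : (0:ℝ) ≤ D := Nat.cast_nonneg _
    have hjs : (j:ℝ) ≤ s := by
      have : j ≤ s := by rw [← hX]; exact Finset.card_le_card (Finset.filter_subset _ _)
      exact_mod_cast this
    have hr : 95 / 100 * n ≤ (((tr G p).filter fun q => q.1 ∉ X ∧ q.2 ∉ X).card : ℝ) := by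
      have hp2 := hQU p hp
      by_cases hall : ∀ x ∈ X, G.Adj p x
      · -- small degree
        have h3 : ¬ n / 10 ≤ (D:ℝ) := by
          intro h4
          exact hp2 (Finset.mem_filter.2 ⟨Finset.mem_univ _, hpX, hall, h4⟩)
        have h4 : (j:ℝ) * D ≤ s * (n / 10) :=
          mul_le_mul hjs (le_of_lt (not_le.1 h3)) hD0 (by positivity)
        nlinarith
      · push Not at hall
        obtain ⟨x, hx, hpx⟩ := hall
        have h3 : (j:ℝ) ≤ s - 1 := by
          have h4 : j < s := by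
            rw [← hX]
            refine Finset.card_lt_card ⟨Finset.filter_subset _ _, fun h => ?_⟩
            exact hpx (Finset.mem_filter.1 (h hx)).2.1
          have h5 : ((j + 1 : ℕ) : ℝ) ≤ s := by exact_mod_cast h4
          push_cast at h5
          linarith
        have h4 : (j:ℝ) * D ≤ (s - 1) * ((1 / 2 + ε) * n) :=
          mul_le_mul h3 hDn hD0 (by linarith)
        nlinarith
    -- pairs with an element in `Qs`
    have hkey : (∀ q ∈ (tr G p).filter (fun q => q.1 ∉ X ∧ q.2 ∉ X),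
        q.1 ∈ Us G X ∧ q.2 ∈ Us G X) → 9 / 10 * n ≤
        (((tr G p).filter fun q => q.1 ∈ Us G X ∧ q.2 ∈ Us G X).card : ℝ) := by
      intro h
      have h1 : ((tr G p).filter fun q => q.1 ∉ X ∧ q.2 ∉ X).card ≤
          ((tr G p).filter fun q => q.1 ∈ Us G X ∧ q.2 ∈ Us G X).card := by
        refine Finset.card_le_card fun q hq => ?_
        exact Finset.mem_filter.2 ⟨(Finset.mem_filter.1 hq).1, h q hq⟩
      have h2 : (((tr G p).filter fun q => q.1 ∉ X ∧ q.2 ∉ X).card : ℝ) ≤
          (((tr G p).filter fun q => q.1 ∈ Us G X ∧ q.2 ∈ Us G X).card : ℝ) := by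
        exact_mod_cast h1
      linarith
    have hXne : X.Nonempty := by
      rw [← Finset.card_pos, hX]
      omega
    rcases hκ with hκ | hκ
    · -- kind `Po`
      subst hκ
      obtain ⟨d, hd⟩ := hXne
      refine hkey fun q hq => ?_
      have h1 := Finset.mem_filter.1 hq
      have h2 := Finset.mem_filter.1 h1.1
      constructor
      · by_contra h3
        have h4 := hcase _ h1.2.1 h3
        exact hH (c1 q.1 p q.2 d (hwadj h2.2.1.symm h1.2.1 hpX) (hwadj h2.2.2.2 h1.2.1 h1.2.2)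
          (hwadj h2.2.2.1 hpX h1.2.2) hd (hLQ _ h4 _ hd))
      · by_contra h3
        have h4 := hcase _ h1.2.2 h3
        exact hH (c1 q.2 p q.1 d (hwadj h2.2.2.1.symm h1.2.2 hpX)
          (hwadj h2.2.2.2.symm h1.2.2 h1.2.1)
          (hwadj h2.2.1 hpX h1.2.1) hd (hLQ _ h4 _ hd))
    · -- kind `Co`
      subst hκ
      by_cases hjz : (X.filter fun x => lnk G K p x).Nonempty
      · obtain ⟨d, hd⟩ := hjz
        have hd1 := Finset.mem_filter.1 hd
        obtain ⟨d', hd', hdd⟩ : ∃ d' ∈ X, d ≠ d' := by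
          have h5 : 1 < X.card := by omega
          obtain ⟨d', hd', h6⟩ := Finset.exists_mem_ne h5 d
          exact ⟨d', hd', h6.symm⟩
        refine hkey fun q hq => ?_
        have h1 := Finset.mem_filter.1 hq
        have h2 := Finset.mem_filter.1 h1.1
        constructor
        · by_contra h3
          have h4 := hcase _ h1.2.1 h3
          exact hH (c2 p q.1 q.2 d d' (hwadj h2.2.1 hpX h1.2.1) (hwadj h2.2.2.1 hpX h1.2.2)
            (hwadj h2.2.2.2 h1.2.1 h1.2.2) hd1.1 hd' hdd hd1.2 (hLQ _ h4 _ hd'))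
        · by_contra h3
          have h4 := hcase _ h1.2.2 h3
          exact hH (c2 p q.2 q.1 d d' (hwadj h2.2.2.1 hpX h1.2.2) (hwadj h2.2.1 hpX h1.2.1)
            (hwadj h2.2.2.2.symm h1.2.2 h1.2.1) hd1.1 hd' hdd hd1.2 (hLQ _ h4 _ hd'))
      · -- `j = 0`
        have hj0 : j = 0 := by
          rw [hj, Finset.card_eq_zero]
          exact Finset.not_nonempty_iff_eq_empty.1 hjz
        rw [hj0] at hT'
        obtain ⟨d, hd, d', hd', hdd⟩ : ∃ d ∈ X, ∃ d' ∈ X, d ≠ d' := by
          have h5 : 1 < X.card := by omega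
          exact Finset.one_lt_card.1 h5
        -- no pair in `Qs × Qs`
        have hnoQQ : ∀ q ∈ (tr G p).filter (fun q => q.1 ∉ X ∧ q.2 ∉ X),
            q.1 ∈ Us G X ∨ q.2 ∈ Us G X := by
          intro q hq
          have h1 := Finset.mem_filter.1 hq
          have h2 := Finset.mem_filter.1 h1.1
          by_contra h3
          push Not at h3
          have h4 := hcase _ h1.2.1 h3.1
          have h5 := hcase _ h1.2.2 h3.2
          exact hH (c2 q.1 q.2 p d d' (hwadj h2.2.2.2 h1.2.1 h1.2.2)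
            (hwadj h2.2.1.symm h1.2.1 hpX) (hwadj h2.2.2.1.symm h1.2.2 hpX) hd hd' hdd
            (hLQ _ h4 _ hd) (hLQ _ h5 _ hd'))
        have hUQ : ((tr G p).filter fun q => q.1 ∈ Us G X ∧ q.2 ∈ Qs G X).card ≤ D := by
          refine row_col (nb G p) _ (fun q hq => ?_) (fun q hq q' hq' => ?_)
          · have h2 := Finset.mem_filter.1 (Finset.mem_filter.1 hq).1
            exact ⟨Finset.mem_filter.2 ⟨Finset.mem_univ _, h2.2.1⟩,
              Finset.mem_filter.2 ⟨Finset.mem_univ _, h2.2.2.1⟩⟩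
          · have h1 := Finset.mem_filter.1 hq
            have h2 := Finset.mem_filter.1 h1.1
            have h1' := Finset.mem_filter.1 hq'
            have h2' := Finset.mem_filter.1 h1'.1
            by_contra h3
            push Not at h3
            have x1 := hXU _ h1.2.1
            have x2 := hQX _ h1.2.2
            have x3 := hXU _ h1'.2.1
            have x4 := hQX _ h1'.2.2
            exact hH (c3 p q.1 q.2 q'.1 q'.2 (hwadj h2.2.1 hpX x1) (hwadj h2.2.2.1 hpX x2)
              (hwadj h2.2.2.2 x1 x2) (hwadj h2'.2.1 hpX x3) (hwadj h2'.2.2.1 hpX x4)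
              (hwadj h2'.2.2.2 x3 x4) h1.2.2 h1'.2.2 h3.2 h3.1
              (fun h => hQU _ h1.2.1 (h ▸ h1'.2.2)) (fun h => hQU _ h1'.2.1 (h ▸ h1.2.2)))
        have hQU2 : ((tr G p).filter fun q => q.1 ∈ Qs G X ∧ q.2 ∈ Us G X).card ≤ D := by
          rw [tr_swap]
          exact hUQ
        have hsp : ((tr G p).filter fun q => q.1 ∉ X ∧ q.2 ∉ X).card ≤
            ((tr G p).filter fun q => q.1 ∈ Us G X ∧ q.2 ∈ Qs G X).card +
            ((tr G p).filter fun q => q.1 ∈ Qs G X ∧ q.2 ∈ Us G X).card +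
            ((tr G p).filter fun q => q.1 ∈ Us G X ∧ q.2 ∈ Us G X).card := by
          refine (Finset.card_le_card (t :=
            ((tr G p).filter fun q => q.1 ∈ Us G X ∧ q.2 ∈ Qs G X) ∪
            ((tr G p).filter fun q => q.1 ∈ Qs G X ∧ q.2 ∈ Us G X) ∪
            ((tr G p).filter fun q => q.1 ∈ Us G X ∧ q.2 ∈ Us G X)) ?_).trans
            ((Finset.card_union_le _ _).trans
              (Nat.add_le_add_right (Finset.card_union_le _ _) _))
          intro q hq
          have h1 := Finset.mem_filter.1 hq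
          simp only [Finset.mem_union, Finset.mem_filter]
          by_cases h3 : q.1 ∈ Us G X
          · by_cases h4 : q.2 ∈ Us G X
            · exact Or.inr ⟨h1.1, h3, h4⟩
            · exact Or.inl (Or.inl ⟨h1.1, h3, hcase _ h1.2.2 h4⟩)
          · have h4 := (hnoQQ q hq).resolve_left h3
            exact Or.inl (Or.inr ⟨h1.1, hcase _ h1.2.1 h3, h4⟩)
        have h6 : (((tr G p).filter fun q => q.1 ∉ X ∧ q.2 ∉ X).card : ℝ) ≤ D + D +
            (((tr G p).filter fun q => q.1 ∈ Us G X ∧ q.2 ∈ Us G X).card : ℝ) := by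
          have h7 : ((tr G p).filter fun q => q.1 ∉ X ∧ q.2 ∉ X).card ≤ D + D +
            ((tr G p).filter fun q => q.1 ∈ Us G X ∧ q.2 ∈ Us G X).card := by omega
          exact_mod_cast h7
        push_cast at hT'
        nlinarith
  have hpeel := hPeel s (by omega) κ V (within G (Us G X))
    (fun h => hH (hEP.hasMono κ s (within_le G _) h))
  have hfc := final_count G (Us G X) (12 * s + 40) (9 / 10 * n) hpeel hmain
  have hUpos : (0:ℝ) < (Us G X).card := by
    exact_mod_cast Finset.card_pos.2 hUne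
  have h9 : 9 / 10 * n ≤ (12 * s + 40) * ((Us G X).card : ℝ) := by
    push_cast at hfc
    have h10 : 9 / 10 * n * ((Us G X).card : ℝ) ≤
        ((12 * s + 40) * ((Us G X).card : ℝ)) * ((Us G X).card : ℝ) := by
      refine hfc.trans (le_of_eq ?_)
      ring
    exact le_of_mul_le_mul_right h10 hUpos
  have h11 : (12 * (s:ℝ) + 40) * ((Us G X).card : ℝ) ≤ (12 * s + 40) * (ε * n) :=
    mul_le_mul_of_nonneg_left hUc (by positivity)
  have h12 : (12 * (s:ℝ) + 40) * ε ≤ 1 / 2 := by nlinarith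
  nlinarith

end Pool.Agent.Helper40.Tri
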